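import Mathlib
import Pool.Agent.R467.KM.Final

/-!
# Sublinearly Morse rays and lower divergence

In every geodesic metric space a geodesic ray is `κ`-Morse if and only if its `κ`-lower divergence is
superlinear.

Morse ⇒ superlinear: a short path around the ball is replaced by a discrete chain that minimises a
weighted length (points near the centre cost more); the minimal chain is a quasi-geodesic far from
the ray. Superlinear ⇒ Morse: a quasi-geodesic point that maximises the height (minus a multiple of
`κ` of the norm) gives a short detour around a ball centred on the ray.
-/

set_option autoImplicit false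

namespace Pool.Agent.Results.MP_395cce_al.MorseIffSuperlinear

open R467.KM

/-- In a geodesic metric space a geodesic ray `b` is `κ`-Morse if and only if its `κ`-lower
divergence is superlinear; the same for the notion with continuous quasi-geodesics. -/
theorem result {X : Type*} [MetricSpace X] (hX : GeodesicSpace X) (κ : ℝ → ℝ) (hκ : Gauge κ)
    (b : ℝ → X) (hb : IsRay b) :
    (IsMorse κ b ↔ Superlinear κ b) ∧ (IsMorseCont κ b ↔ Superlinear κ b) :=
  ⟨⟨fun h => superlinear_of_morseCont hX hκ hb (morseCont_of_morse h),
    fun h => morse_of_SL hX hκ hb (SL_of_superlinear hκ h)⟩,
   ⟨fun h => superlinear_of_morseCont hX hκ hb h,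
    fun h => morseCont_of_morse (morse_of_SL hX hκ hb (SL_of_superlinear hκ h))⟩⟩

end Pool.Agent.Results.MP_395cce_al.MorseIffSuperlinear
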